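import Pool.Agent.R712.PM

set_option autoImplicit false

namespace Pool.Agent.Results.MP_3569d7_al.NotAttained

open Pool.Agent.R712.PM

universe u

/-- Over every field `F` of characteristic zero (for instance `ℂ`) there is a partial matrix `A`
(of size `8 × 8`, with specified entries `0, 1, -1`, namely `tab F`) with `fmr(A) = 3` and
`mr_b(A) / b > fmr(A)` for all `b ≥ 1`, where `mr_b(A) = mr(A ⊗ I_b)`: the infimum which
defines the fractional minimal rank is not attained. -/
theorem result (F : Type u) [Field F] [CharZero F] :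
    ∃ (m n : ℕ) (A : Fin m → Fin n → Option F), fmr A = 3 ∧
      ∀ b : ℕ, 1 ≤ b → fmr A < (mr (tens A b) : ℝ) / (b : ℝ) := by
  refine ⟨8, 8, tab F, fmr_eq F, ?_⟩
  intro b hb
  have h := lt_mr_tens F b (by exact_mod_cast (by omega : b ≠ 0))
  have hb0 : (0 : ℝ) < (b : ℝ) := by exact_mod_cast hb
  rw [fmr_eq F, lt_div_iff₀ hb0]
  exact_mod_cast h

end Pool.Agent.Results.MP_3569d7_al.NotAttained
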